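import Pool.Agent.Q180.KB.Main

/-!
# Corner-side swaps do not always have the most words in common

`Adj`, `Board`, `words`, `common`, `Equivalent`, `IsCornerSideSwap` are defined in
`Pool.Agent.Q180.KB.Defs`. The words with 16 letters of a `4 × 4` board are its Hamiltonian paths.
-/

set_option autoImplicit false

namespace Pool.Agent.Results.MP_407208_co.SixteenLetters

open Pool.Agent.Q180.KB

/-- (1) Let `B` be a `4 × 4` board. Every corner-side swap of `B` has exactly 109844 words with 16
letters in common with `B` (and there are corner-side swaps), while some board which is not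
equivalent to `B` has 158224 such words in common with `B`.

(2) Hence it is not true that for all `n ≥ 4` and `k ≥ 2` a corner-side swap of a board attains the
maximal number of common words with `k` letters over all boards which are not equivalent to it. -/
theorem result :
    (∀ B : Board 4, (∃ B', IsCornerSideSwap B B') ∧
      (∀ B', IsCornerSideSwap B B' → common 16 B B' = 109844) ∧
      ∃ B', ¬ Equivalent B B' ∧ common 16 B B' = 158224) ∧
    ¬ ∀ n : ℕ, 4 ≤ n → ∀ k : ℕ, 2 ≤ k → ∀ B Bs : Board n, IsCornerSideSwap B Bs →
      IsGreatest {m | ∃ B' : Board n, ¬ Equivalent B B' ∧ m = common k B B'} (common k B Bs) := by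
  have key : ∀ B : Board 4, (∃ B', IsCornerSideSwap B B') ∧
      (∀ B', IsCornerSideSwap B B' → common 16 B B' = 109844) ∧
      ∃ B', ¬ Equivalent B B' ∧ common 16 B B' = 158224 := by
    intro B
    refine ⟨⟨(Equiv.swap ((0, 0) : Cell) (0, 1)).trans B, (0, 0), (0, 1), by decide, by decide,
      by decide, by decide, rfl⟩, ?_, ?_⟩
    · rintro _ ⟨c, s, h1, h2, h3, h4, rfl⟩
      rw [common_eq, card_corner c s h1 h2 h3 h4]
    · exact ⟨_, not_equiv B, by rw [common_eq, card_other]⟩
  refine ⟨key, fun h => ?_⟩
  obtain ⟨⟨Bs, hBs⟩, h1, B', hB', h2⟩ := key finProdFinEquiv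
  have h3 := (h 4 le_rfl 16 (by norm_num) _ Bs hBs).2 ⟨B', hB', rfl⟩
  rw [h2, h1 Bs hBs] at h3
  norm_num at h3

end Pool.Agent.Results.MP_407208_co.SixteenLetters
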